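import Pool.Agent.Y40.NM.Main
import Pool.Agent.Helper292.ForceCH

/-!
# A nonmeager set of reals of size `ℵ₁` refutes the stability of Corson compacta

If some set of reals of size `ℵ₁` is nonmeager, in particular if there is a Luzin set or if the
continuum hypothesis holds, then there are a Corson compact space `L` and a separable compact
space `K` which is not Corson compact such that `C(K)` and `C(L)` are linearly homeomorphic. The
weaker hypothesis `BoundedGuessing` suffices: for every bound `b` there are `ℵ₁` functions such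
that every function below `b` is infinitely often equal to one of them. The starting result for
this problem assumes the continuum hypothesis.

The construction of `K` and `L` from a set `Q` of digit sequences is the one of
`Pool.Agent.H794R2.CorF`; new is the construction of `Q` (`Pool.Agent.Y40.NM.Main`).
-/

set_option autoImplicit false

universe v

open Cardinal

namespace Pool.Agent.Results.MP_9ea9ae_an.SmallNonmeagerSet

open H794R2.Cor Pool.Agent.Y40.NM

theorem result :
    -- (1) bounded guessing by `ℵ₁` functions is enough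
    (BoundedGuessing →
      ∃ (K L : Type) (_ : TopologicalSpace K) (_ : TopologicalSpace L)
        (_ : CompactSpace K) (_ : T2Space K) (_ : CompactSpace L) (_ : T2Space L),
        IsCorsonCompact.{0, 0} L ∧ ¬ IsCorsonCompact.{0, v} K ∧
        TopologicalSpace.SeparableSpace K ∧ Nonempty (C(K, ℝ) ≃L[ℝ] C(L, ℝ))) ∧
    -- (2) it follows from the existence of a nonmeager set of reals of size `ℵ₁`
    ((∃ Z : Set ℝ, #Z = ℵ₁ ∧ ¬ IsMeagre Z) → BoundedGuessing) ∧
    -- (3) such a set exists if there is a Luzin set
    ((∃ S : Set ℝ, ¬ S.Countable ∧ ∀ M : Set ℝ, IsMeagre M → (S ∩ M).Countable) →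
      ∃ Z : Set ℝ, #Z = ℵ₁ ∧ ¬ IsMeagre Z) ∧
    -- (4) such a set exists under the continuum hypothesis
    ((ℵ₁ : Cardinal.{0}) = 𝔠 → ∃ Z : Set ℝ, #Z = ℵ₁ ∧ ¬ IsMeagre Z) ∧
    -- (5) the continuum hypothesis can be forced
    (∃ (P : Type) (_ : Preorder P), Nonempty P ∧ ∀ p : P,
      p ∈ Pool.Agent.Helper292.ForceCH.OmegaOnePreserved P ∧
      p ∈ Pool.Agent.Helper292.ForceCH.CHHolds P) := by
  refine ⟨fun h => ?_, ?_, ?_, nonmeagre_of_CH, ?_⟩
  · obtain ⟨Q, h1, h2⟩ := exists_Q_of_guessing h
    exact main h1 h2
  · rintro ⟨Z, hZ, hm⟩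
    exact boundedGuessing_of_nonmeagre hZ.le hm
  · rintro ⟨S, hS, hM⟩
    exact nonmeagre_of_luzin hS hM
  · obtain ⟨P, i, h1, h2⟩ := Pool.Agent.Helper292.ForceCH.exists_forcing
    exact ⟨P, i, h1, fun p => ⟨(h2 p).1, (h2 p).2.2⟩⟩

end Pool.Agent.Results.MP_9ea9ae_an.SmallNonmeagerSet
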